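import Pool.Agent.MP05966f.Tab

set_option maxRecDepth 100000

namespace Pool.Agent.MP05966f

theorem run_0 : run tab 768667 8423 78125 390625 12500 1 24325633 109376 23727828 = true := by decide +kernel

theorem run_1 : run tab 768667 8423 78125 390625 12500 109376 23727828 218751 31495702 = true := by decide +kernel

theorem run_2 : run tab 768667 8423 78125 390625 12500 218751 31495702 328126 28784944 = true := by decide +kernel

theorem run_3 : run tab 768667 8423 78125 390625 12500 328126 28784944 46876 22738836 = true := by decide +kernel

theorem run_4 : run tab 768667 8423 78125 390625 12500 46876 22738836 156251 27725050 = true := by decide +kernel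

end Pool.Agent.MP05966f
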