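import Pool.Agent.MP05966f.Tab

set_option maxRecDepth 100000

namespace Pool.Agent.MP05966f

theorem run_5 : run tab 768667 8423 78125 390625 12500 156251 27725050 265626 24231459 = true := by decide +kernel

theorem run_6 : run tab 768667 8423 78125 390625 12500 265626 24231459 375001 32159408 = true := by decide +kernel

theorem run_7 : run tab 768667 8423 78125 390625 12500 375001 32159408 93751 23050041 = true := by decide +kernel

theorem run_8 : run tab 768667 8423 78125 390625 12500 93751 23050041 203126 19428902 = true := by decide +kernel

theorem run_9 : run tab 768667 8423 78125 390625 12500 203126 19428902 312501 23861636 = true := by decide +kernel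

end Pool.Agent.MP05966f
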