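import Pool.Agent.MP05966f.Tab

set_option maxRecDepth 100000

namespace Pool.Agent.MP05966f

theorem run_10 : run tab 768667 8423 78125 390625 12500 312501 23861636 31251 26268983 = true := by decide +kernel

theorem run_11 : run tab 768667 8423 78125 390625 12500 31251 26268983 140626 22114779 = true := by decide +kernel

theorem run_12 : run tab 768667 8423 78125 390625 12500 140626 22114779 250001 28818738 = true := by decide +kernel

theorem run_13 : run tab 768667 8423 78125 390625 12500 250001 28818738 359376 19689979 = true := by decide +kernel

theorem run_14 : run tab 768667 8423 78125 390625 12500 359376 19689979 78126 25443617 = true := by decide +kernel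

end Pool.Agent.MP05966f
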