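import Pool.Agent.MP05966f.Tab

set_option maxRecDepth 100000

namespace Pool.Agent.MP05966f

theorem run_15 : run tab 768667 8423 78125 390625 12500 78126 25443617 187501 20920119 = true := by decide +kernel

theorem run_16 : run tab 768667 8423 78125 390625 12500 187501 20920119 296876 26147808 = true := by decide +kernel

theorem run_17 : run tab 768667 8423 78125 390625 12500 296876 26147808 15626 23916725 = true := by decide +kernel

theorem run_18 : run tab 768667 8423 78125 390625 12500 15626 23916725 125001 22170798 = true := by decide +kernel

theorem run_19 : run tab 768667 8423 78125 390625 12500 125001 22170798 234376 24089694 = true := by decide +kernel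

end Pool.Agent.MP05966f
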