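import Pool.Agent.MP05966f.Tab

set_option maxRecDepth 100000

namespace Pool.Agent.MP05966f

theorem run_20 : run tab 768667 8423 78125 390625 12500 234376 24089694 343751 21123884 = true := by decide +kernel

theorem run_21 : run tab 768667 8423 78125 390625 12500 343751 21123884 62501 31613941 = true := by decide +kernel

theorem run_22 : run tab 768667 8423 78125 390625 12500 62501 31613941 171876 27088557 = true := by decide +kernel

theorem run_23 : run tab 768667 8423 78125 390625 12500 171876 27088557 281251 21148883 = true := by decide +kernel

theorem run_24 : run tab 768667 8423 78125 390625 12500 281251 21148883 1 24325633 = true := by decide +kernel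

end Pool.Agent.MP05966f
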