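import Pool.Agent.MP05966f.Final
import Pool.Agent.MP05966f.Run0
import Pool.Agent.MP05966f.Run1
import Pool.Agent.MP05966f.Run2
import Pool.Agent.MP05966f.Run3
import Pool.Agent.MP05966f.Run4

namespace Pool.Agent.MP05966f

lemma reach_0 : Reach tab 78125 (56 / 125) 0 1 24325633 :=
  Reach.start consts (by norm_num) (by norm_num) warm0

lemma reach_1 : Reach tab 78125 (56 / 125) 12500 109376 23727828 :=
  reach_0.next consts (by norm_num) run_0 (by norm_num)

lemma reach_2 : Reach tab 78125 (56 / 125) 25000 218751 31495702 :=
  reach_1.next consts (by norm_num) run_1 (by norm_num)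

lemma reach_3 : Reach tab 78125 (56 / 125) 37500 328126 28784944 :=
  reach_2.next consts (by norm_num) run_2 (by norm_num)

lemma reach_4 : Reach tab 78125 (56 / 125) 50000 46876 22738836 :=
  reach_3.next consts (by norm_num) run_3 (by norm_num)

lemma reach_5 : Reach tab 78125 (56 / 125) 62500 156251 27725050 :=
  reach_4.next consts (by norm_num) run_4 (by norm_num)

lemma reach_6 : Reach tab 78125 (56 / 125) 75000 265626 24231459 :=
  reach_5.next consts (by norm_num) run_5 (by norm_num)

lemma reach_7 : Reach tab 78125 (56 / 125) 87500 375001 32159408 :=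
  reach_6.next consts (by norm_num) run_6 (by norm_num)

lemma reach_8 : Reach tab 78125 (56 / 125) 100000 93751 23050041 :=
  reach_7.next consts (by norm_num) run_7 (by norm_num)

lemma reach_9 : Reach tab 78125 (56 / 125) 112500 203126 19428902 :=
  reach_8.next consts (by norm_num) run_8 (by norm_num)

lemma reach_10 : Reach tab 78125 (56 / 125) 125000 312501 23861636 :=
  reach_9.next consts (by norm_num) run_9 (by norm_num)

lemma reach_11 : Reach tab 78125 (56 / 125) 137500 31251 26268983 :=
  reach_10.next consts (by norm_num) run_10 (by norm_num)

lemma reach_12 : Reach tab 78125 (56 / 125) 150000 140626 22114779 :=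
  reach_11.next consts (by norm_num) run_11 (by norm_num)

lemma reach_13 : Reach tab 78125 (56 / 125) 162500 250001 28818738 :=
  reach_12.next consts (by norm_num) run_12 (by norm_num)

lemma reach_14 : Reach tab 78125 (56 / 125) 175000 359376 19689979 :=
  reach_13.next consts (by norm_num) run_13 (by norm_num)

lemma reach_15 : Reach tab 78125 (56 / 125) 187500 78126 25443617 :=
  reach_14.next consts (by norm_num) run_14 (by norm_num)

lemma reach_16 : Reach tab 78125 (56 / 125) 200000 187501 20920119 :=
  reach_15.next consts (by norm_num) run_15 (by norm_num)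

lemma reach_17 : Reach tab 78125 (56 / 125) 212500 296876 26147808 :=
  reach_16.next consts (by norm_num) run_16 (by norm_num)

lemma reach_18 : Reach tab 78125 (56 / 125) 225000 15626 23916725 :=
  reach_17.next consts (by norm_num) run_17 (by norm_num)

lemma reach_19 : Reach tab 78125 (56 / 125) 237500 125001 22170798 :=
  reach_18.next consts (by norm_num) run_18 (by norm_num)

lemma reach_20 : Reach tab 78125 (56 / 125) 250000 234376 24089694 :=
  reach_19.next consts (by norm_num) run_19 (by norm_num)

lemma reach_21 : Reach tab 78125 (56 / 125) 262500 343751 21123884 :=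
  reach_20.next consts (by norm_num) run_20 (by norm_num)

lemma reach_22 : Reach tab 78125 (56 / 125) 275000 62501 31613941 :=
  reach_21.next consts (by norm_num) run_21 (by norm_num)

lemma reach_23 : Reach tab 78125 (56 / 125) 287500 171876 27088557 :=
  reach_22.next consts (by norm_num) run_22 (by norm_num)

lemma reach_24 : Reach tab 78125 (56 / 125) 300000 281251 21148883 :=
  reach_23.next consts (by norm_num) run_23 (by norm_num)

lemma reach_25 : Reach tab 78125 (56 / 125) 312500 1 24325633 :=
  reach_24.next consts (by norm_num) run_24 (by norm_num)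

lemma reach_end : Reach tab 78125 (56 / 125) 312500 1 24325633 := reach_25

end Pool.Agent.MP05966f
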