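import Mathlib

/-!
Kernel checker for the backward tree of the `5x+1` map.
-/

namespace Pool.Agent.MP05966f

/-- Binary trees of chunks, addressed by low bits first. -/
inductive BT where
  | leaf (v : Nat) : BT
  | node (l r : BT) : BT

/-- Look up the chunk with index `i`. -/
noncomputable def BT.get (t : BT) : Nat → Nat :=
  BT.rec (motive := fun _ => Nat → Nat) (fun v _ => v)
    (fun _ _ gl gr i => cond (Nat.beq (Nat.mod i 2) 1) (gr (Nat.div i 2)) (gl (Nat.div i 2))) t

/-- Entry `c`: 1024 entries of 16 bits for each chunk. -/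
noncomputable def ent (t : BT) (c : Nat) : Nat :=
  Nat.mod (Nat.shiftRight (t.get (Nat.div c 1024)) (Nat.mul 16 (Nat.mod c 1024))) 65536

/-- Entry `c`, set to zero for multiples of five. -/
noncomputable def wf (t : BT) (c : Nat) : Nat := cond (Nat.beq (Nat.mod c 5) 0) 0 (ent t c)

/-- Evaluate a natural number before continuing. -/
noncomputable def force {α : Type} (x : Nat) (f : Nat → α) : α :=
  Nat.rec (motive := fun _ => α) (f 0) (fun n _ => f (Nat.succ n)) x

/-- Next value of the accumulator. -/
noncomputable def nextU (t : BT) (A G m u : Nat) : Nat :=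
  Nat.shiftRight (Nat.mul A (Nat.add u (Nat.mul G
    (cond (Nat.beq (Nat.mod m 5) 1) (wf t (Nat.div m 5)) 0)))) 20

/-- Half of `m` modulo `M1`. -/
def half (M1 m : Nat) : Nat :=
  cond (Nat.beq (Nat.mod m 2) 0) (Nat.div m 2) (Nat.div (Nat.add m M1) 2)

/-- The loop. `M` is the modulus for the table, `M1 = 5 M`; state `(m, u)`; final state `(me, ue)`. -/
noncomputable def run (t : BT) (A G M M1 : Nat) (fuel : Nat) : Nat → Nat → Nat → Nat → Bool :=
  Nat.rec (motive := fun _ => Nat → Nat → Nat → Nat → Bool)
    (fun m u me ue => cond (Nat.beq m me) (Nat.beq u ue) false)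
    (fun _ ih m u me ue =>
      force (nextU t A G m u) (fun u' =>
      force (half M1 m) (fun m' =>
      force (ent t (Nat.mod m' M)) (fun w =>
      cond (Nat.ble 1 w) (cond (Nat.ble (Nat.mul 4096 w) u') (ih m' u' me ue) false) false)))) fuel

/-- The loop without checks (used for warming up). -/
noncomputable def warm (t : BT) (A G M1 : Nat) (fuel : Nat) : Nat → Nat → Nat → Nat → Bool :=
  Nat.rec (motive := fun _ => Nat → Nat → Nat → Nat → Bool)
    (fun m u me ue => cond (Nat.beq m me) (Nat.beq u ue) false)
    (fun _ ih m u me ue =>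
      force (nextU t A G m u) (fun u' =>
      force (half M1 m) (fun m' => ih m' u' me ue))) fuel

theorem force_eq {α : Type} (x : Nat) (f : Nat → α) : force x f = f x := by
  unfold force
  cases x <;> rfl

theorem ent_def (t : BT) (c : Nat) :
    ent t c = (Nat.shiftRight (t.get (c / 1024)) (16 * (c % 1024))) % 65536 := rfl

theorem wf_def (t : BT) (c : Nat) : wf t c = cond (Nat.beq (c % 5) 0) 0 (ent t c) := rfl

theorem nextU_def (t : BT) (A G m u : Nat) : nextU t A G m u =
  Nat.shiftRight (A * (u + G * cond (Nat.beq (m % 5) 1) (wf t (m / 5)) 0)) 20 := rfl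

theorem half_def (M1 m : Nat) :
    half M1 m = cond (Nat.beq (m % 2) 0) (m / 2) ((m + M1) / 2) := rfl

end Pool.Agent.MP05966f
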