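import Mathlib
import Pool.Agent.MP05966f.Check

open Finset

namespace Pool.Agent.MP05966f

/-! ### The potential -/

section Potential

variable (W : ℕ → ℕ) (M : ℕ) (θ : ℝ)

/-- weight of the possible odd child of `n` -/
noncomputable def gg (n : ℕ) : ℝ := if n % 5 = 1 then (W ((n / 5) % M) : ℝ) else 0

/-- the potential -/
noncomputable def VV (n : ℕ) : ℝ := ∑' t : ℕ, ((2 : ℝ) ^ (-θ)) ^ (t + 1) * ((5 : ℝ) ^ θ * gg W M (2 ^ (t + 1) * n))

lemma gg_nonneg (n : ℕ) : 0 ≤ gg W M n := by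
  unfold gg; split_ifs <;> positivity

lemma gg_le (B : ℕ) (hB : ∀ c, W c ≤ B) (n : ℕ) : gg W M n ≤ B := by
  unfold gg
  split_ifs
  · exact_mod_cast hB _
  · positivity

lemma alpha_lt_one (hθ : 0 < θ) : (2 : ℝ) ^ (-θ) < 1 :=
  Real.rpow_lt_one_of_one_lt_of_neg one_lt_two (by linarith)

lemma summable_VV (hθ : 0 < θ) (B : ℕ) (hB : ∀ c, W c ≤ B) (n : ℕ) :
    Summable (fun t : ℕ => ((2 : ℝ) ^ (-θ)) ^ (t + 1) * ((5 : ℝ) ^ θ * gg W M (2 ^ (t + 1) * n))) := by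
  have hα : (0 : ℝ) ≤ (2 : ℝ) ^ (-θ) := by positivity
  have h1 : Summable (fun t : ℕ => ((2 : ℝ) ^ (-θ)) ^ t * ((2 : ℝ) ^ (-θ) * ((5 : ℝ) ^ θ * B))) :=
    (summable_geometric_of_lt_one hα (alpha_lt_one θ hθ)).mul_right _
  refine Summable.of_nonneg_of_le (fun t => ?_) (fun t => ?_) h1
  · have := gg_nonneg W M (2 ^ (t + 1) * n)
    positivity
  · have h2 := gg_le W M B hB (2 ^ (t + 1) * n)
    have h3 : ((2 : ℝ) ^ (-θ)) ^ (t + 1) * ((5 : ℝ) ^ θ * gg W M (2 ^ (t + 1) * n)) ≤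
        ((2 : ℝ) ^ (-θ)) ^ (t + 1) * ((5 : ℝ) ^ θ * B) := by gcongr
    refine h3.trans (le_of_eq ?_)
    rw [pow_succ]; ring

lemma VV_rec (hθ : 0 < θ) (B : ℕ) (hB : ∀ c, W c ≤ B) (n : ℕ) :
    VV W M θ n = (2 : ℝ) ^ (-θ) * ((5 : ℝ) ^ θ * gg W M (2 * n) + VV W M θ (2 * n)) := by
  unfold VV
  rw [(summable_VV W M θ hθ B hB n).tsum_eq_zero_add]
  rw [mul_add, ← tsum_mul_left]
  congr 1
  · simp
  · refine tsum_congr fun t => ?_
    rw [show 2 ^ (t + 1 + 1) * n = 2 ^ (t + 1) * (2 * n) by ring, pow_succ ((2 : ℝ) ^ (-θ)) (t + 1)]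
    ring

lemma VV_nonneg (n : ℕ) : 0 ≤ VV W M θ n := by
  unfold VV
  refine tsum_nonneg fun t => ?_
  have := gg_nonneg W M (2 ^ (t + 1) * n)
  positivity

lemma VV_le (hθ : 0 < θ) (B : ℕ) (hB : ∀ c, W c ≤ B) (n : ℕ) :
    VV W M θ n ≤ (1 - (2 : ℝ) ^ (-θ))⁻¹ * ((2 : ℝ) ^ (-θ) * ((5 : ℝ) ^ θ * B)) := by
  have hα : (0 : ℝ) ≤ (2 : ℝ) ^ (-θ) := by positivity
  have h1 : Summable (fun t : ℕ => ((2 : ℝ) ^ (-θ)) ^ t * ((2 : ℝ) ^ (-θ) * ((5 : ℝ) ^ θ * B))) :=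
    (summable_geometric_of_lt_one hα (alpha_lt_one θ hθ)).mul_right _
  have h4 : ∑' t : ℕ, ((2 : ℝ) ^ (-θ)) ^ t * ((2 : ℝ) ^ (-θ) * ((5 : ℝ) ^ θ * B)) =
      (1 - (2 : ℝ) ^ (-θ))⁻¹ * ((2 : ℝ) ^ (-θ) * ((5 : ℝ) ^ θ * B)) := by
    rw [tsum_mul_right, tsum_geometric_of_lt_one hα (alpha_lt_one θ hθ)]
  rw [← h4]
  unfold VV
  refine (summable_VV W M θ hθ B hB n).tsum_le_tsum (fun t => ?_) h1
  have h2 := gg_le W M B hB (2 ^ (t + 1) * n)
  have h3 : ((2 : ℝ) ^ (-θ)) ^ (t + 1) * ((5 : ℝ) ^ θ * gg W M (2 ^ (t + 1) * n)) ≤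
      ((2 : ℝ) ^ (-θ)) ^ (t + 1) * ((5 : ℝ) ^ θ * B) := by gcongr
  refine h3.trans (le_of_eq ?_)
  rw [pow_succ]; ring

lemma gg_mod (n : ℕ) : gg W M (n % (5 * M)) = gg W M n := by
  unfold gg
  have h1 : n % (5 * M) % 5 = n % 5 := Nat.mod_mod_of_dvd _ (Dvd.intro M rfl)
  have h2 : n % (5 * M) / 5 % M = n / 5 % M := by
    rw [Nat.mod_mul_right_div_self, Nat.mod_mod]
  rw [h1, h2]

lemma gg_congr {n n' : ℕ} (h : n % (5 * M) = n' % (5 * M)) : gg W M n = gg W M n' := by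
  rw [← gg_mod, h, gg_mod]

lemma VV_congr {n n' : ℕ} (h : n % (5 * M) = n' % (5 * M)) : VV W M θ n = VV W M θ n' := by
  unfold VV
  refine tsum_congr fun t => ?_
  rw [gg_congr W M (n := 2 ^ (t + 1) * n) (n' := 2 ^ (t + 1) * n') (Nat.ModEq.mul_left _ h)]

lemma VV_of_dvd {n : ℕ} (h : n % 5 = 0) : VV W M θ n = 0 := by
  unfold VV
  have : ∀ t : ℕ, ((2 : ℝ) ^ (-θ)) ^ (t + 1) * ((5 : ℝ) ^ θ * gg W M (2 ^ (t + 1) * n)) = 0 := by
    intro t
    unfold gg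
    rw [if_neg (by rw [Nat.mul_mod, h]; simp)]
    simp
  simp [this]

end Potential

/-! ### The tree -/

/-- The `5x+1` map on natural numbers. -/
def tN (n : ℕ) : ℕ := if n % 2 = 1 then (5 * n + 1) / 2 else n / 2

lemma tN_double (n : ℕ) : tN (2 * n) = n := by
  unfold tN; rw [if_neg (by omega)]; omega

lemma tN_child (n : ℕ) (h : n % 5 = 3) : tN (2 * n / 5) = n := by
  unfold tN
  have h1 : 5 * (2 * n / 5) + 1 = 2 * n := by omega
  rw [if_pos (by omega), h1]; omega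

section Main

variable (W : ℕ → ℕ) (M : ℕ) (θ : ℝ)

open Classical in
/-- The flow inequality for a non-periodic root. -/
lemma flow (hθ : 0 < θ) (B : ℕ) (hB : ∀ c, W c ≤ B)
    (hcert : ∀ b : ℕ, (W (b % M) : ℝ) ≤ VV W M θ b) (a : ℕ) (ha : 0 < a)
    (hper : ∀ k : ℕ, tN^[k + 1] a ≠ a) (Y : ℕ) (hY : a ≤ Y) :
    VV W M θ a * (a : ℝ) ^ (-θ) ≤
      ∑ m ∈ (Finset.Ioc Y (2 * Y)).filter (fun m => ∃ k, tN^[k] m = a),
        VV W M θ m * (m : ℝ) ^ (-θ) := by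
  set F : ℕ → ℝ := fun n => VV W M θ n * (n : ℝ) ^ (-θ) with hF
  have hF0 : ∀ n, 0 ≤ F n := fun n => mul_nonneg (VV_nonneg W M θ n) (by positivity)
  -- pointwise inequality
  have hpt : ∀ n : ℕ, 0 < n → F n ≤ F (2 * n) + (if n % 5 = 3 then F (2 * n / 5) else 0) := by
    intro n hn
    have hn0 : (0 : ℝ) < n := by exact_mod_cast hn
    have h1 : F n = (2 : ℝ) ^ (-θ) * (n : ℝ) ^ (-θ) * VV W M θ (2 * n) +
        (2 : ℝ) ^ (-θ) * (5 : ℝ) ^ θ * (n : ℝ) ^ (-θ) * gg W M (2 * n) := by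
      rw [hF]; simp only
      rw [VV_rec W M θ hθ B hB n]; ring
    have h2 : F (2 * n) = (2 : ℝ) ^ (-θ) * (n : ℝ) ^ (-θ) * VV W M θ (2 * n) := by
      rw [hF]; simp only
      rw [Nat.cast_mul, Real.mul_rpow (by norm_num) hn0.le]; push_cast; ring
    rw [h1, h2]
    refine add_le_add le_rfl ?_
    unfold gg
    by_cases h3 : n % 5 = 3
    · rw [if_pos h3, if_pos (by omega)]
      have hb : 0 < 2 * n / 5 := by omega
      have hb0 : (0 : ℝ) < ((2 * n / 5 : ℕ) : ℝ) := by exact_mod_cast hb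
      have h4 := hcert (2 * n / 5)
      have h5 : ((2 * n / 5 : ℕ) : ℝ) ≤ 2 * n / 5 := by
        have : 5 * (2 * n / 5) ≤ 2 * n := Nat.mul_div_le _ _
        have h6 : (5 : ℝ) * ((2 * n / 5 : ℕ) : ℝ) ≤ 2 * n := by exact_mod_cast this
        linarith
      have h7 : (2 * (n : ℝ) / 5) ^ (-θ) ≤ ((2 * n / 5 : ℕ) : ℝ) ^ (-θ) :=
        Real.rpow_le_rpow_of_nonpos hb0 h5 (by linarith)
      have h8 : (2 : ℝ) ^ (-θ) * (5 : ℝ) ^ θ * (n : ℝ) ^ (-θ) = (2 * (n : ℝ) / 5) ^ (-θ) := by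
        rw [Real.div_rpow (by positivity) (by norm_num), Real.mul_rpow (by norm_num) hn0.le,
          Real.rpow_neg (x := 5) (by norm_num)]
        rw [div_inv_eq_mul]; ring
      rw [h8]
      calc (2 * (n : ℝ) / 5) ^ (-θ) * (W (2 * n / 5 % M) : ℝ)
          ≤ ((2 * n / 5 : ℕ) : ℝ) ^ (-θ) * VV W M θ (2 * n / 5) := by
            apply mul_le_mul h7 h4 (by positivity) (by positivity)
        _ = F (2 * n / 5) := by rw [hF]; ring
    · rw [if_neg h3, if_neg (by omega)]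
      simp
  set Tr := (Finset.Icc 1 Y).filter (fun n => ∃ k, tN^[k] n = a) with hTr
  have haT : a ∈ Tr := by
    rw [hTr, Finset.mem_filter, Finset.mem_Icc]
    exact ⟨⟨ha, hY⟩, 0, rfl⟩
  have hsum : ∑ n ∈ Tr, F n ≤ ∑ n ∈ Tr, (F (2 * n) + (if n % 5 = 3 then F (2 * n / 5) else 0)) := by
    refine Finset.sum_le_sum fun n hn => hpt n ?_
    rw [hTr, Finset.mem_filter, Finset.mem_Icc] at hn
    omega
  -- children
  set Ch1 := Tr.image (fun n => 2 * n) with hCh1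
  set Ch2 := (Tr.filter (fun n => n % 5 = 3)).image (fun n => 2 * n / 5) with hCh2
  have hs1 : ∑ n ∈ Tr, F (2 * n) = ∑ m ∈ Ch1, F m := by
    rw [hCh1, Finset.sum_image]
    intro x _ y _ hxy
    simp only at hxy
    omega
  have hs2 : ∑ n ∈ Tr, (if n % 5 = 3 then F (2 * n / 5) else 0) = ∑ m ∈ Ch2, F m := by
    rw [hCh2, ← Finset.sum_filter, Finset.sum_image]
    intro x hx y hy hxy
    simp only at hxy
    have h1 : x % 5 = 3 := (Finset.mem_filter.mp hx).2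
    have h2 : y % 5 = 3 := (Finset.mem_filter.mp hy).2
    omega
  have hdisj : Disjoint Ch1 Ch2 := by
    rw [Finset.disjoint_left]
    intro m h1 h2
    obtain ⟨x, -, hx⟩ := Finset.mem_image.mp h1
    obtain ⟨y, hy, hy'⟩ := Finset.mem_image.mp h2
    have h3 := (Finset.mem_filter.mp hy).2
    have hx2 : 2 * x = m := hx
    have hy2 : 2 * y / 5 = m := hy'
    omega
  rw [Finset.sum_add_distrib, hs1, hs2, ← Finset.sum_union hdisj] at hsum
  have hchild : ∀ m ∈ Ch1 ∪ Ch2, tN m ∈ Tr := by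
    intro m hm
    rcases Finset.mem_union.mp hm with h | h
    · obtain ⟨x, hx, rfl⟩ := Finset.mem_image.mp h
      rw [tN_double]; exact hx
    · obtain ⟨x, hx, rfl⟩ := Finset.mem_image.mp h
      rw [tN_child x (Finset.mem_filter.mp hx).2]; exact (Finset.mem_filter.mp hx).1
  have hcover : Ch1 ∪ Ch2 ⊆ (Tr.erase a) ∪
      (Finset.Ioc Y (2 * Y)).filter (fun m => ∃ k, tN^[k] m = a) := by
    intro m hm
    have h1 := hchild m hm
    rw [hTr, Finset.mem_filter, Finset.mem_Icc] at h1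
    obtain ⟨⟨h1a, h1b⟩, k, hk⟩ := h1
    have hma : m ≠ a := by
      rintro rfl
      apply hper k
      rw [Function.iterate_succ_apply]; exact hk
    have hm1 : 1 ≤ m := by
      by_contra hcon
      have : m = 0 := by omega
      rw [this] at h1a
      simp [tN] at h1a
    have hm2 : m ≤ 2 * Y := by
      rcases Finset.mem_union.mp hm with h | h
      · obtain ⟨x, hx, rfl⟩ := Finset.mem_image.mp h
        rw [tN_double] at h1b
        omega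
      · obtain ⟨x, hx, rfl⟩ := Finset.mem_image.mp h
        have h3 := (Finset.mem_filter.mp hx).1
        rw [hTr, Finset.mem_filter, Finset.mem_Icc] at h3
        omega
    have hmk : ∃ k, tN^[k] m = a := ⟨k + 1, by rw [Function.iterate_succ_apply]; exact hk⟩
    rw [Finset.mem_union]
    by_cases hmY : m ≤ Y
    · left
      rw [Finset.mem_erase]
      refine ⟨hma, ?_⟩
      rw [hTr, Finset.mem_filter, Finset.mem_Icc]
      exact ⟨⟨hm1, hmY⟩, hmk⟩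
    · right
      rw [Finset.mem_filter, Finset.mem_Ioc]
      exact ⟨⟨by omega, hm2⟩, hmk⟩
  have h9 : ∑ m ∈ Ch1 ∪ Ch2, F m ≤ ∑ m ∈ Tr.erase a, F m +
      ∑ m ∈ (Finset.Ioc Y (2 * Y)).filter (fun m => ∃ k, tN^[k] m = a), F m := by
    refine (Finset.sum_le_sum_of_subset_of_nonneg hcover fun i _ _ => hF0 i).trans ?_
    have h11 := Finset.sum_union_inter (s₁ := Tr.erase a)
      (s₂ := (Finset.Ioc Y (2 * Y)).filter (fun m => ∃ k, tN^[k] m = a)) (f := F)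
    have h12 : 0 ≤ ∑ m ∈ (Tr.erase a) ∩
        (Finset.Ioc Y (2 * Y)).filter (fun m => ∃ k, tN^[k] m = a), F m :=
      Finset.sum_nonneg fun i _ => hF0 i
    linarith
  have h10 : ∑ m ∈ Tr, F m = F a + ∑ m ∈ Tr.erase a, F m := (Finset.add_sum_erase _ _ haT).symm
  linarith

end Main

end Pool.Agent.MP05966f
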