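import Mathlib
import Pool.Agent.MP05966f.Theory

/-!
Correctness of the kernel checker.
-/

namespace Pool.Agent.MP05966f

/-- The certificate constants are compatible with the exponent. -/
structure Consts (A G : ℕ) (θ : ℝ) : Prop where
  hθ : 0 < θ
  hA : (A : ℝ) / 2 ^ 20 ≤ (2 : ℝ) ^ (-θ)
  hG : (G : ℝ) ≤ 4096 * (5 : ℝ) ^ θ

lemma half_lt {M1 m : ℕ} (hm : m < M1) : half M1 m < M1 := by
  rw [half_def]
  cases h : Nat.beq (m % 2) 0
  · simp only [cond_false]; omega
  · simp only [cond_true]; omega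

lemma two_half {M1 m : ℕ} (hodd : M1 % 2 = 1) : (2 * half M1 m) % M1 = m % M1 := by
  rw [half_def]
  cases h : Nat.beq (m % 2) 0
  · have h1 : ¬ (m % 2 = 0) := by
      intro h2; rw [h2] at h; simp at h
    simp only [cond_false]
    have : 2 * ((m + M1) / 2) = m + M1 := by omega
    rw [this, Nat.add_mod_right]
  · have h1 : m % 2 = 0 := Nat.eq_of_beq_eq_true h
    simp only [cond_true]
    have : 2 * (m / 2) = m := by omega
    rw [this]

lemma half_congr_dvd {M1 m : ℕ} (hodd : M1 % 2 = 1) (hm : m < M1) : (2 * half M1 m) % M1 = m := by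
  rw [two_half hodd, Nat.mod_eq_of_lt hm]

lemma wf_le (t : BT) (c : ℕ) : wf t c ≤ 65536 := by
  rw [wf_def, ent_def]
  cases h : Nat.beq (c % 5) 0
  · simp only [cond_false]
    exact (Nat.mod_lt _ (by norm_num)).le
  · simp

section Loop

variable (t : BT) (A G M : ℕ) (θ : ℝ)

/-- the potential attached to a table -/
noncomputable def Vt (n : ℕ) : ℝ := VV (wf t) M θ n

lemma step_le (hc : Consts A G θ) (hodd : M % 2 = 1) {m u : ℕ} (hm : m < 5 * M)
    (hu : (u : ℝ) ≤ 4096 * Vt t M θ m) :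
    (nextU t A G m u : ℝ) ≤ 4096 * Vt t M θ (half (5 * M) m) := by
  have hodd1 : (5 * M) % 2 = 1 := by omega
  have hrec := VV_rec (wf t) M θ hc.hθ 65536 (wf_le t) (half (5 * M) m)
  have h1 : (2 * half (5 * M) m) % (5 * M) = m % (5 * M) := two_half hodd1
  rw [gg_congr (wf t) M h1, VV_congr (wf t) M θ h1] at hrec
  have h2 : gg (wf t) M m = ((cond (Nat.beq (m % 5) 1) (wf t (m / 5)) 0 : ℕ) : ℝ) := by
    unfold gg
    cases h : Nat.beq (m % 5) 1
    · have h3 : ¬ (m % 5 = 1) := by
        intro h4; rw [h4] at h; simp at h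
      rw [if_neg h3]; simp
    · have h3 : m % 5 = 1 := Nat.eq_of_beq_eq_true h
      rw [if_pos h3, Nat.mod_eq_of_lt (show m / 5 < M by omega)]
      simp
  rw [nextU_def]
  unfold Vt
  rw [hrec, h2]
  set w : ℕ := cond (Nat.beq (m % 5) 1) (wf t (m / 5)) 0
  have h5 : ((Nat.shiftRight (A * (u + G * w)) 20 : ℕ) : ℝ) ≤ ((A * (u + G * w) : ℕ) : ℝ) / 2 ^ 20 := by
    have : Nat.shiftRight (A * (u + G * w)) 20 = (A * (u + G * w)) / 2 ^ 20 := by
      exact Nat.shiftRight_eq_div_pow _ _
    rw [this]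
    have h := @Nat.cast_div_le ℝ _ _ _ (A * (u + G * w)) (2 ^ 20)
    refine h.trans (le_of_eq ?_)
    rw [Nat.cast_pow]; norm_num
  refine h5.trans ?_
  push_cast
  have h6 : (0 : ℝ) ≤ (u : ℝ) + G * w := by positivity
  have h7 : (A : ℝ) * (u + G * w) / 2 ^ 20 = (A : ℝ) / 2 ^ 20 * (u + G * w) := by ring
  rw [h7]
  have hα : (0 : ℝ) ≤ (2 : ℝ) ^ (-θ) := by positivity
  have h8 : (u : ℝ) + G * w ≤ 4096 * Vt t M θ m + 4096 * (5 : ℝ) ^ θ * w := by
    have : (G : ℝ) * w ≤ 4096 * (5 : ℝ) ^ θ * w := mul_le_mul_of_nonneg_right hc.hG (by positivity)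
    linarith
  calc (A : ℝ) / 2 ^ 20 * (u + G * w) ≤ (2 : ℝ) ^ (-θ) * (4096 * Vt t M θ m + 4096 * (5 : ℝ) ^ θ * w) := by
        apply mul_le_mul hc.hA h8 h6 hα
    _ = _ := by unfold Vt; ring

/-- The entries met in `n` steps starting from `m` are good. -/
def Good (n m : ℕ) : Prop := ∀ j, 1 ≤ j → j ≤ n →
  1 ≤ ent t ((half (5 * M))^[j] m % M) ∧ (ent t ((half (5 * M))^[j] m % M) : ℝ) ≤ Vt t M θ ((half (5 * M))^[j] m)

lemma run_correct (hc : Consts A G θ) (hodd : M % 2 = 1) (me ue : ℕ) : ∀ (fuel m u : ℕ), m < 5 * M →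
    (u : ℝ) ≤ 4096 * Vt t M θ m → run t A G M (5 * M) fuel m u me ue = true →
    ((ue : ℝ) ≤ 4096 * Vt t M θ me ∧ (half (5 * M))^[fuel] m = me ∧ Good t M θ fuel m) := by
  intro fuel
  induction fuel with
  | zero =>
    intro m u hm hu hr
    have h1 : cond (Nat.beq m me) (Nat.beq u ue) false = true := hr
    cases h2 : Nat.beq m me
    · rw [h2] at h1; simp at h1
    · rw [h2] at h1
      have h3 : m = me := Nat.eq_of_beq_eq_true h2
      have h4 : u = ue := Nat.eq_of_beq_eq_true h1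
      subst h3; subst h4
      refine ⟨hu, rfl, ?_⟩
      intro j hj hj2; omega
  | succ n ih =>
    intro m u hm hu hr
    have h1 : force (nextU t A G m u) (fun u' => force (half (5 * M) m) (fun m' =>
      force (ent t (m' % M)) (fun w =>
      cond (Nat.ble 1 w) (cond (Nat.ble (4096 * w) u') (run t A G M (5 * M) n m' u' me ue) false) false)))
        = true := hr
    rw [force_eq, force_eq, force_eq] at h1
    cases h2 : Nat.ble 1 (ent t (half (5 * M) m % M))
    · rw [h2] at h1; simp at h1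
    rw [h2] at h1
    cases h3 : Nat.ble (4096 * ent t (half (5 * M) m % M)) (nextU t A G m u)
    · rw [h3] at h1; simp at h1
    rw [h3] at h1
    simp only [cond_true] at h1
    have hu' := step_le t A G M θ hc hodd hm hu
    have hm' : half (5 * M) m < 5 * M := half_lt hm
    obtain ⟨g1, g2, g3⟩ := ih _ _ hm' hu' h1
    refine ⟨g1, by rw [Function.iterate_succ_apply]; exact g2, ?_⟩
    have h4 : 1 ≤ ent t (half (5 * M) m % M) := Nat.le_of_ble_eq_true h2
    have h5 : 4096 * ent t (half (5 * M) m % M) ≤ nextU t A G m u := Nat.le_of_ble_eq_true h3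
    intro j hj hj2
    by_cases hj1 : j = 1
    · subst hj1
      refine ⟨h4, ?_⟩
      have h6 : (4096 : ℝ) * (ent t (half (5 * M) m % M)) ≤ (nextU t A G m u : ℝ) := by exact_mod_cast h5
      have h7 := h6.trans hu'
      simp only [Function.iterate_one]
      linarith
    · obtain ⟨i, rfl⟩ : ∃ i, j = i + 1 := ⟨j - 1, by omega⟩
      rw [Function.iterate_succ_apply]
      exact g3 i (by omega) (by omega)

lemma warm_correct (hc : Consts A G θ) (hodd : M % 2 = 1) (me ue : ℕ) : ∀ (fuel m u : ℕ), m < 5 * M →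
    (u : ℝ) ≤ 4096 * Vt t M θ m → warm t A G (5 * M) fuel m u me ue = true →
    (ue : ℝ) ≤ 4096 * Vt t M θ me := by
  intro fuel
  induction fuel with
  | zero =>
    intro m u hm hu hr
    have h1 : cond (Nat.beq m me) (Nat.beq u ue) false = true := hr
    cases h2 : Nat.beq m me
    · rw [h2] at h1; simp at h1
    · rw [h2] at h1
      have h3 : m = me := Nat.eq_of_beq_eq_true h2
      have h4 : u = ue := Nat.eq_of_beq_eq_true h1
      subst h3; subst h4
      exact hu
  | succ n ih =>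
    intro m u hm hu hr
    have h1 : force (nextU t A G m u) (fun u' => force (half (5 * M) m) (fun m' =>
      warm t A G (5 * M) n m' u' me ue)) = true := hr
    rw [force_eq, force_eq] at h1
    exact ih _ _ (half_lt hm) (step_le t A G M θ hc hodd hm hu) h1

lemma Good.append {n1 n2 m m' : ℕ} (h1 : Good t M θ n1 m) (h2 : (half (5 * M))^[n1] m = m')
    (h3 : Good t M θ n2 m') : Good t M θ (n1 + n2) m := by
  intro j hj hj2
  by_cases h : j ≤ n1
  · exact h1 j hj h
  · obtain ⟨i, rfl⟩ : ∃ i, j = i + n1 := ⟨j - n1, by omega⟩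
    rw [Function.iterate_add_apply, h2]
    exact h3 i (by omega) (by omega)

/-- State of the verification after `n` steps. -/
structure Reach (n m u : ℕ) : Prop where
  good : Good t M θ n 1
  it : (half (5 * M))^[n] 1 = m
  bd : (u : ℝ) ≤ 4096 * Vt t M θ m
  lt : m < 5 * M

lemma Reach.next {t : BT} {A G M : ℕ} {θ : ℝ} (hc : Consts A G θ) (hodd : M % 2 = 1)
    {n m u fuel m' u' n' : ℕ} (h : Reach t M θ n m u)
    (hr : run t A G M (5 * M) fuel m u m' u' = true) (hn' : n + fuel = n') : Reach t M θ n' m' u' := by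
  obtain ⟨g1, g2, g3⟩ := run_correct t A G M θ hc hodd m' u' fuel m u h.lt h.bd hr
  subst hn'
  refine ⟨h.good.append t M θ h.it g3, ?_, g1, ?_⟩
  · rw [Nat.add_comm, Function.iterate_add_apply, h.it, g2]
  · rw [← g2]
    have : ∀ k, (half (5 * M))^[k] m < 5 * M := by
      intro k
      induction k with
      | zero => exact h.lt
      | succ k ih => rw [Function.iterate_succ_apply']; exact half_lt ih
    exact this _

lemma Reach.start {t : BT} {A G M : ℕ} {θ : ℝ} (hc : Consts A G θ) (hodd : M % 2 = 1)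
    {fuel m0 u : ℕ} (hm0 : m0 < 5 * M) (hr : warm t A G (5 * M) fuel m0 0 1 u = true) :
    Reach t M θ 0 1 u := by
  refine ⟨fun j h1 h2 => by omega, rfl, ?_, by omega⟩
  refine warm_correct t A G M θ hc hodd 1 u fuel m0 0 hm0 ?_ hr
  have := VV_nonneg (wf t) M θ m0
  unfold Vt
  push_cast; linarith

end Loop

end Pool.Agent.MP05966f
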