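import Mathlib

/-!
`2` is a primitive root modulo `5 ^ 8`.
-/

namespace Pool.Agent.MP05966f

lemma pow_a : 2 ^ 312500 % 390625 = 1 := by decide +kernel
lemma pow_b : 2 ^ 156250 % 390625 ≠ 1 := by decide +kernel
lemma pow_c : 2 ^ 62500 % 390625 ≠ 1 := by decide +kernel

lemma exists_two_pow (n : ℕ) (hn : n % 5 ≠ 0) : ∃ i < 312500, (2 ^ i) % 390625 = n % 390625 := by
  have hcop : Nat.Coprime 2 390625 := by norm_num
  have hncop : Nat.Coprime n 390625 := by
    have h5 : Nat.Coprime 5 n := (Nat.Prime.coprime_iff_not_dvd (by norm_num)).mpr (by omega)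
    have : Nat.Coprime (5 ^ 8) n := Nat.Coprime.pow_left 8 h5
    rw [show (390625 : ℕ) = 5 ^ 8 by norm_num]
    exact this.symm
  set u : (ZMod 390625)ˣ := ZMod.unitOfCoprime 2 hcop with hu
  set v : (ZMod 390625)ˣ := ZMod.unitOfCoprime n hncop with hv
  have key : ∀ k : ℕ, u ^ k = 1 ↔ 2 ^ k % 390625 = 1 := by
    intro k
    rw [Units.ext_iff]
    push_cast
    rw [hu, ZMod.coe_unitOfCoprime]
    have : ((2 : ℕ) : ZMod 390625) ^ k = ((2 ^ k : ℕ) : ZMod 390625) := by push_cast; rfl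
    rw [this]
    have h1 : ((1 : ZMod 390625)) = ((1 : ℕ) : ZMod 390625) := by simp
    rw [h1, ZMod.natCast_eq_natCast_iff']
  have hcard : Fintype.card (ZMod 390625)ˣ = 312500 := by
    rw [ZMod.card_units_eq_totient, show (390625 : ℕ) = 5 ^ 8 by norm_num,
      Nat.totient_prime_pow (by norm_num) (by norm_num)]
    norm_num
  have hord : orderOf u = 312500 := by
    refine orderOf_eq_of_pow_and_pow_div_prime (by norm_num) ((key _).mpr pow_a) ?_
    intro p hp hpd
    have h1 : p ∣ 2 ^ 2 * 5 ^ 7 := by norm_num; exact hpd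
    rcases (Nat.Prime.dvd_mul hp).mp h1 with h | h
    · have h2 := (Nat.prime_dvd_prime_iff_eq hp (by norm_num)).mp (Nat.Prime.dvd_of_dvd_pow hp h)
      subst h2
      rw [show (312500 / 2 : ℕ) = 156250 by norm_num, Ne, key]; exact pow_b
    · have h2 := (Nat.prime_dvd_prime_iff_eq hp (by norm_num)).mp (Nat.Prime.dvd_of_dvd_pow hp h)
      subst h2
      rw [show (312500 / 5 : ℕ) = 62500 by norm_num, Ne, key]; exact pow_c
  have hmem : v ∈ Subgroup.zpowers u := by
    have : Subgroup.zpowers u = ⊤ := by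
      apply Subgroup.eq_top_of_card_eq
      rw [Nat.card_zpowers, hord, Nat.card_eq_fintype_card, hcard]
    rw [this]; trivial
  rw [mem_zpowers_iff_mem_range_orderOf, Finset.mem_image] at hmem
  obtain ⟨i, hi, hi2⟩ := hmem
  rw [Finset.mem_range, hord] at hi
  refine ⟨i, hi, ?_⟩
  have h3 := congrArg (fun x : (ZMod 390625)ˣ => (x : ZMod 390625)) hi2
  push_cast at h3
  rw [hu, hv, ZMod.coe_unitOfCoprime, ZMod.coe_unitOfCoprime] at h3
  have : ((2 : ℕ) : ZMod 390625) ^ i = ((2 ^ i : ℕ) : ZMod 390625) := by push_cast; rfl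
  rw [this, ZMod.natCast_eq_natCast_iff'] at h3
  exact h3

end Pool.Agent.MP05966f
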