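import Mathlib
import Pool.Agent.MP05966f.Loop
import Pool.Agent.MP05966f.Prim

/-!
From a full run of the checker to the growth bound.
-/

open Finset

namespace Pool.Agent.MP05966f

lemma half_iter (M1 : ℕ) (hodd : M1 % 2 = 1) (j : ℕ) :
    (2 ^ j * (half M1)^[j] 1) % M1 = 1 % M1 := by
  induction j with
  | zero => simp
  | succ j ih =>
    rw [Function.iterate_succ_apply', pow_succ, mul_assoc]
    have h := two_half (m := (half M1)^[j] 1) hodd
    have h2 : (2 ^ j * (2 * half M1 ((half M1)^[j] 1))) % M1 = (2 ^ j * ((half M1)^[j] 1)) % M1 :=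
      Nat.ModEq.mul_left _ h
    rw [h2, ih]

lemma cover (b : ℕ) (hb : b % 5 ≠ 0) : ∃ j, 1 ≤ j ∧ j ≤ 312500 ∧ (half 390625)^[j] 1 = b % 390625 := by
  obtain ⟨i, hi, h⟩ := exists_two_pow b hb
  refine ⟨312500 - i, by omega, by omega, ?_⟩
  set c := (half 390625)^[312500 - i] 1 with hc
  have hlt : c < 390625 := by
    have : ∀ k, (half 390625)^[k] 1 < 390625 := by
      intro k
      induction k with
      | zero => norm_num
      | succ k ih => rw [Function.iterate_succ_apply']; exact half_lt ih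
    exact this _
  have h1 : (2 ^ (312500 - i) * c) % 390625 = 1 % 390625 := half_iter 390625 (by norm_num) _
  have h2 : (2 ^ i * (2 ^ (312500 - i) * c)) % 390625 = (2 ^ i * 1) % 390625 := Nat.ModEq.mul_left _ h1
  have h3 : 2 ^ i * (2 ^ (312500 - i) * c) = 2 ^ 312500 * c := by
    rw [← mul_assoc, ← pow_add]
    congr 2
    omega
  have h4 : (2 ^ 312500 * c) % 390625 = (1 * c) % 390625 := by
    have : 2 ^ 312500 % 390625 = 1 % 390625 := pow_a
    exact Nat.ModEq.mul_right _ this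
  rw [h3, h4, mul_one, one_mul, h, Nat.mod_eq_of_lt hlt] at h2
  exact h2

lemma good_all {t : BT} {θ : ℝ} {u : ℕ} (h : Reach t 78125 θ 312500 1 u) (b : ℕ) (hb : b % 5 ≠ 0) :
    1 ≤ ent t (b % 78125) ∧ (ent t (b % 78125) : ℝ) ≤ Vt t 78125 θ b := by
  obtain ⟨j, hj1, hj2, hj3⟩ := cover b hb
  have h1 := h.good j hj1 hj2
  rw [show 5 * 78125 = 390625 by norm_num, hj3] at h1
  have h2 : b % 390625 % 78125 = b % 78125 := Nat.mod_mod_of_dvd _ (by norm_num)
  rw [h2] at h1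
  have h3 : Vt t 78125 θ (b % 390625) = Vt t 78125 θ b := by
    unfold Vt
    apply VV_congr
    norm_num
  rw [h3] at h1
  exact h1

lemma wf_le_ent (t : BT) (c : ℕ) : wf t c ≤ ent t c := by
  rw [wf_def]
  cases h : Nat.beq (c % 5) 0 <;> simp

lemma cert_all {t : BT} {θ : ℝ} {u : ℕ} (h : Reach t 78125 θ 312500 1 u) (b : ℕ) :
    (wf t (b % 78125) : ℝ) ≤ VV (wf t) 78125 θ b := by
  by_cases hb : b % 5 = 0
  · have h1 : wf t (b % 78125) = 0 := by
      rw [wf_def]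
      have : b % 78125 % 5 = 0 := by omega
      rw [this]; simp
    rw [h1]
    simpa using VV_nonneg (wf t) 78125 θ b
  · have h1 := (good_all h b hb).2
    have h2 := wf_le_ent t (b % 78125)
    have h3 : (wf t (b % 78125) : ℝ) ≤ (ent t (b % 78125) : ℝ) := by exact_mod_cast h2
    exact h3.trans h1

lemma VV_pos {t : BT} {θ : ℝ} {u : ℕ} (h : Reach t 78125 θ 312500 1 u) (b : ℕ) (hb : b % 5 ≠ 0) :
    1 ≤ VV (wf t) 78125 θ b := by
  have h1 := good_all h b hb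
  have h2 : (1 : ℝ) ≤ (ent t (b % 78125) : ℝ) := by exact_mod_cast h1.1
  exact h2.trans h1.2

/-- Some `2 ^ j * a` is not periodic. -/
lemma exists_nonperiodic (a : ℕ) (ha : 0 < a) : ∃ j, ∀ k : ℕ, tN^[k + 1] (2 ^ j * a) ≠ 2 ^ j * a := by
  have hpow : ∀ j, tN^[j] (2 ^ j * a) = a := by
    intro j
    induction j with
    | zero => simp
    | succ j ih =>
      rw [Function.iterate_succ_apply, pow_succ, mul_comm (2 ^ j) 2, mul_assoc, tN_double, ih]
  by_contra hcon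
  push Not at hcon
  obtain ⟨p, hp⟩ := hcon 0
  rw [pow_zero, one_mul] at hp
  -- the orbit of `a` is bounded
  have hper : Function.IsPeriodicPt tN (p + 1) a := hp
  obtain ⟨Bd, hBd⟩ : ∃ Bd, ∀ i, tN^[i] a ≤ Bd := by
    refine ⟨(Finset.range (p + 1)).sup (fun i => tN^[i] a), fun i => ?_⟩
    have h1 : tN^[i % (p + 1)] a = tN^[i] a := hper.iterate_mod_apply i
    rw [← h1]
    exact Finset.le_sup (f := fun i => tN^[i] a) (Finset.mem_range.mpr (Nat.mod_lt _ (by omega)))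
  obtain ⟨k, hk⟩ := hcon (Bd + 1)
  set b := 2 ^ (Bd + 1) * a with hb
  have hperb : Function.IsPeriodicPt tN (k + 1) b := hk
  have h2 : tN^[(k + 1) * (Bd + 1)] b = b := hperb.mul_const (Bd + 1)
  have h3 : (k + 1) * (Bd + 1) = (k * (Bd + 1)) + (Bd + 1) := by ring
  rw [h3, Function.iterate_add_apply, hb, hpow, ← hb] at h2
  have h4 := hBd (k * (Bd + 1))
  rw [h2, hb] at h4
  have h5 : Bd + 1 < 2 ^ (Bd + 1) := Nat.lt_two_pow_self
  have h6 : 2 ^ (Bd + 1) ≤ 2 ^ (Bd + 1) * a := Nat.le_mul_of_pos_right _ ha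
  omega

open Classical in
/-- number of `n` in `[1, Y]` reaching `a` -/
noncomputable def cN (a Y : ℕ) : ℕ := ((Finset.Icc 1 Y).filter (fun n => ∃ k, tN^[k] n = a)).card

lemma growth_nat {t : BT} {A G : ℕ} {θ : ℝ} {u : ℕ} (hc : Consts A G θ)
    (h : Reach t 78125 θ 312500 1 u) (a : ℕ) (ha : 0 < a)
    (ha5 : a % 5 ≠ 0) : ∃ C : ℝ, 0 < C ∧ ∃ b : ℕ, a ≤ b ∧ ∀ Y : ℕ, b ≤ Y → C * (Y : ℝ) ^ θ ≤ cN a (2 * Y) := by
  classical
  obtain ⟨j, hj⟩ := exists_nonperiodic a ha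
  set b := 2 ^ j * a with hb
  have hb5 : b % 5 ≠ 0 := by
    intro h0
    have h1 : 5 ∣ 2 ^ j * a := Nat.dvd_of_mod_eq_zero h0
    rcases (Nat.Prime.dvd_mul (by norm_num)).mp h1 with h2 | h2
    · have := Nat.Prime.dvd_of_dvd_pow (by norm_num) h2
      omega
    · omega
  have hab : a ≤ b := Nat.le_mul_of_pos_left _ (by positivity)
  have hb0 : 0 < b := by omega
  have hbr : tN^[j] b = a := by
    rw [hb]
    clear hb hb5 hab hb0 hj
    induction j with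
    | zero => simp
    | succ j ih =>
      rw [Function.iterate_succ_apply, pow_succ, mul_comm (2 ^ j) 2, mul_assoc, tN_double, ih]
  set K : ℝ := (1 - (2 : ℝ) ^ (-θ))⁻¹ * ((2 : ℝ) ^ (-θ) * ((5 : ℝ) ^ θ * (65536 : ℕ))) with hK
  have hKpos : 0 < K := by
    have := alpha_lt_one θ hc.hθ
    have h1 : 0 < (1 - (2 : ℝ) ^ (-θ))⁻¹ := inv_pos.mpr (by linarith)
    rw [hK]; positivity
  have hVK : ∀ m, VV (wf t) 78125 θ m ≤ K := fun m => VV_le (wf t) 78125 θ hc.hθ 65536 (wf_le t) m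
  have hVb := VV_pos h b hb5
  have hb0r : (0 : ℝ) < b := by exact_mod_cast hb0
  refine ⟨(b : ℝ) ^ (-θ) / K, by positivity, b, hab, ?_⟩
  intro Y hY
  have hY0 : 0 < Y := by omega
  have hY0r : (0 : ℝ) < Y := by exact_mod_cast hY0
  have hfl := flow (wf t) 78125 θ hc.hθ 65536 (wf_le t) (cert_all h) b hb0 hj Y hY
  set S := (Finset.Ioc Y (2 * Y)).filter (fun m => ∃ k, tN^[k] m = b) with hS
  have h1 : ∑ m ∈ S, VV (wf t) 78125 θ m * (m : ℝ) ^ (-θ) ≤ ∑ m ∈ S, K * (Y : ℝ) ^ (-θ) := by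
    refine Finset.sum_le_sum fun m hm => ?_
    rw [hS, Finset.mem_filter, Finset.mem_Ioc] at hm
    have hm2 : (Y : ℝ) ≤ m := by exact_mod_cast hm.1.1.le
    exact mul_le_mul (hVK m) (Real.rpow_le_rpow_of_nonpos hY0r hm2 (by linarith [hc.hθ]))
      (by positivity) hKpos.le
  rw [Finset.sum_const, nsmul_eq_mul] at h1
  have h2 : (S.card : ℝ) ≤ cN a (2 * Y) := by
    unfold cN
    have : S ⊆ (Finset.Icc 1 (2 * Y)).filter (fun n => ∃ k, tN^[k] n = a) := by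
      intro m hm
      rw [hS, Finset.mem_filter, Finset.mem_Ioc] at hm
      rw [Finset.mem_filter, Finset.mem_Icc]
      obtain ⟨⟨hm1, hm2⟩, k, hk⟩ := hm
      refine ⟨⟨by omega, hm2⟩, j + k, ?_⟩
      rw [Function.iterate_add_apply, hk, hbr]
    exact_mod_cast Finset.card_le_card this
  have h3 : (b : ℝ) ^ (-θ) ≤ VV (wf t) 78125 θ b * (b : ℝ) ^ (-θ) := by
    have : (0 : ℝ) ≤ (b : ℝ) ^ (-θ) := by positivity
    nlinarith
  have h4 : (b : ℝ) ^ (-θ) ≤ (cN a (2 * Y) : ℝ) * (K * (Y : ℝ) ^ (-θ)) := by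
    refine h3.trans (hfl.trans (h1.trans ?_))
    exact mul_le_mul_of_nonneg_right h2 (by positivity)
  have h5 : (Y : ℝ) ^ θ * (Y : ℝ) ^ (-θ) = 1 := by
    rw [← Real.rpow_add hY0r]; simp
  have h6 : (b : ℝ) ^ (-θ) / K * (Y : ℝ) ^ θ ≤ ((cN a (2 * Y) : ℝ) * (K * (Y : ℝ) ^ (-θ))) / K * (Y : ℝ) ^ θ := by
    gcongr
  refine h6.trans (le_of_eq ?_)
  field_simp
  linear_combination (cN a (2 * Y) : ℝ) * h5

/-- The `5x+1` map. -/
def T5 (n : ℤ) : ℤ := if Odd n then (5 * n + 1) / 2 else n / 2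

/-- Number of integers `1 ≤ n ≤ x` whose orbit contains `a`. -/
noncomputable def count5 (a : ℤ) (x : ℝ) : ℕ :=
  Set.ncard {n : ℤ | 1 ≤ n ∧ (n : ℝ) ≤ x ∧ ∃ k : ℕ, T5^[k] n = a}

lemma T5_cast (n : ℕ) : T5 (n : ℤ) = (tN n : ℤ) := by
  unfold T5 tN
  by_cases h : n % 2 = 1
  · rw [if_pos h, if_pos (by rw [Int.odd_iff]; omega)]; push_cast; rfl
  · rw [if_neg h, if_neg (by rw [Int.odd_iff]; omega)]; push_cast; rfl

lemma T5_iter_cast (k n : ℕ) : T5^[k] (n : ℤ) = (tN^[k] n : ℤ) := by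
  induction k generalizing n with
  | zero => rfl
  | succ k ih => rw [Function.iterate_succ_apply, Function.iterate_succ_apply, T5_cast, ih]

lemma count_finite (a : ℤ) (x : ℝ) :
    Set.Finite {n : ℤ | 1 ≤ n ∧ (n : ℝ) ≤ x ∧ ∃ k : ℕ, T5^[k] n = a} := by
  refine (Set.finite_Icc (1 : ℤ) ⌊x⌋).subset ?_
  rintro n ⟨h1, h2, -⟩
  exact ⟨h1, Int.le_floor.mpr h2⟩

lemma cN_le_count (a Y : ℕ) (x : ℝ) (hx : (Y : ℝ) ≤ x) : cN a Y ≤ count5 a x := by
  classical
  unfold cN count5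
  rw [← Finset.card_image_of_injective _ (Nat.cast_injective (R := ℤ)), ← Set.ncard_coe_finset]
  refine Set.ncard_le_ncard ?_ (count_finite a x)
  intro n hn
  simp only [Finset.coe_image, Set.mem_image, Finset.mem_coe, Finset.mem_filter, Finset.mem_Icc] at hn
  obtain ⟨m, ⟨⟨h1, h2⟩, k, hk⟩, rfl⟩ := hn
  refine ⟨by exact_mod_cast h1, ?_, k, by rw [T5_iter_cast, hk]⟩
  have : (m : ℝ) ≤ Y := by exact_mod_cast h2
  push_cast
  linarith

lemma growth_real {t : BT} {A G : ℕ} {θ : ℝ} {u : ℕ} (hc : Consts A G θ)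
    (h : Reach t 78125 θ 312500 1 u) (a : ℤ) (ha : 0 < a)
    (ha5 : ¬ (5 ∣ a)) : ∃ C : ℝ, 0 < C ∧ ∀ x : ℝ, (a : ℝ) ≤ x → C * x ^ θ ≤ count5 a x := by
  obtain ⟨a', rfl⟩ : ∃ a' : ℕ, a = (a' : ℤ) := ⟨a.toNat, by omega⟩
  obtain ⟨C, hC, b, hab, hb⟩ := growth_nat hc h a' (by omega) (by omega)
  have ha0 : (0 : ℝ) < (a' : ℝ) := by exact_mod_cast ha
  set C2 : ℝ := C * (1 / 4) ^ θ with hC2
  set C3 : ℝ := 1 / (4 * (b : ℝ) + 4) ^ θ with hC3
  have hC2p : 0 < C2 := by positivity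
  have hC3p : 0 < C3 := by positivity
  refine ⟨min C2 C3, lt_min hC2p hC3p, fun x hx => ?_⟩
  have hx' : (a' : ℝ) ≤ x := by exact_mod_cast hx
  have hx0 : 0 < x := by linarith
  by_cases hbig : 4 * (b : ℝ) + 4 ≤ x
  · -- large x
    set Y := ⌊x / 2⌋₊ with hY
    have h1 : (Y : ℝ) ≤ x / 2 := Nat.floor_le (by positivity)
    have h2 : x / 2 < Y + 1 := Nat.lt_floor_add_one _
    have h3 : (b : ℝ) ≤ Y := by linarith
    have h4 := hb Y (by exact_mod_cast h3)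
    have h5 : (cN a' (2 * Y) : ℝ) ≤ count5 a' x := by
      have := cN_le_count a' (2 * Y) x (by push_cast; linarith)
      exact_mod_cast this
    have h6 : x / 4 ≤ (Y : ℝ) := by linarith
    have h7 : (x / 4) ^ θ ≤ (Y : ℝ) ^ θ := Real.rpow_le_rpow (by positivity) h6 hc.hθ.le
    have h8 : (x / 4) ^ θ = (1 / 4) ^ θ * x ^ θ := by
      rw [← Real.mul_rpow (by norm_num) hx0.le]; congr 1; ring
    calc min C2 C3 * x ^ θ ≤ C2 * x ^ θ := by gcongr; exact min_le_left _ _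
      _ = C * (x / 4) ^ θ := by rw [h8, hC2]; ring
      _ ≤ C * (Y : ℝ) ^ θ := by gcongr
      _ ≤ _ := h4.trans h5
  · push Not at hbig
    have h1 : x ^ θ ≤ (4 * (b : ℝ) + 4) ^ θ := Real.rpow_le_rpow hx0.le hbig.le hc.hθ.le
    have h2 : (1 : ℝ) ≤ count5 a' x := by
      have : 0 < count5 a' x := by
        unfold count5
        rw [Set.ncard_pos (count_finite _ _)]
        exact ⟨(a' : ℤ), by omega, by exact_mod_cast hx', 0, rfl⟩
      exact_mod_cast this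
    calc min C2 C3 * x ^ θ ≤ C3 * x ^ θ := by gcongr; exact min_le_right _ _
      _ ≤ C3 * (4 * (b : ℝ) + 4) ^ θ := by gcongr
      _ = 1 := by rw [hC3]; field_simp
      _ ≤ _ := h2

lemma consts : Consts 768667 8423 (56 / 125) := by
  refine ⟨by norm_num, ?_, ?_⟩
  · rw [← pow_le_pow_iff_left₀ (n := 125) (by positivity) (by positivity) (by norm_num)]
    rw [← Real.rpow_natCast ((2 : ℝ) ^ (-(56 / 125 : ℝ))), ← Real.rpow_mul (by norm_num)]
    rw [show (-(56 / 125) * ((125 : ℕ) : ℝ)) = -((56 : ℕ) : ℝ) by push_cast; norm_num,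
      Real.rpow_neg (by norm_num), Real.rpow_natCast]
    rw [div_pow, div_le_iff₀ (by positivity), inv_mul_eq_div, le_div_iff₀ (by positivity)]
    norm_num
  · rw [← pow_le_pow_iff_left₀ (n := 125) (by positivity) (by positivity) (by norm_num), mul_pow]
    rw [← Real.rpow_natCast ((5 : ℝ) ^ ((56 / 125 : ℝ))), ← Real.rpow_mul (by norm_num)]
    rw [show ((56 / 125) * ((125 : ℕ) : ℝ)) = ((56 : ℕ) : ℝ) by push_cast; norm_num,
      Real.rpow_natCast]
    norm_num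

end Pool.Agent.MP05966f
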